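import Mathlib
import Pool.Agent.H24.Plac

set_option autoImplicit false

namespace Pool.Agent.Results.MP_54e6ab_lc.Undecidable

open Pool.Agent.H24 Pool.Agent.H24.Plac

/-- The set of Gödel numbers of the formulas (atomic formulas: equalities of two words in
variables and the constants `C`) that are true in the monoid `M`, unbound variables being read as
the identity, is computable. -/
def DecTheory (M : Type) [Monoid M] (C : Type) [Primcodable C] (c : C → M) : Prop :=
  ComputablePred fun n : ℕ => ∃ φ : FO.Fm (List (ℕ ⊕ C) × List (ℕ ⊕ C)),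
    φ.code = n ∧ φ.Sat (eqn c) fun _ => 1

/-- The first-order theories of `P(ℕ)` and `P(ℤ)` are undecidable, with constants for the
generators and also without constants. -/
theorem result :
    (¬ DecTheory (Plactic ℕ) ℕ (PresentedMonoid.of (Knuth ℕ)) ∧
      ¬ DecTheory (Plactic ℕ) Empty Empty.elim) ∧
    (¬ DecTheory (Plactic ℤ) ℤ (PresentedMonoid.of (Knuth ℤ)) ∧
      ¬ DecTheory (Plactic ℤ) Empty Empty.elim) :=
  ⟨⟨undec _ strictMono_id, undec _ strictMono_id⟩,
    ⟨undec _ (c := fun n : ℕ => (n : ℤ)) Nat.strictMono_cast,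
      undec _ (c := fun n : ℕ => (n : ℤ)) Nat.strictMono_cast⟩⟩

end Pool.Agent.Results.MP_54e6ab_lc.Undecidable
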